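import Mathlib
import Pool.Agent.H90.CS.Defs
import Pool.Agent.H90.CS.CurvesMain
import Pool.Agent.H90.CS.Final
import Pool.Agent.H90.CS.Smooth
import Pool.Agent.H90.CS.T7

/-!
# A contractible surface of log-general type without once-punctured curves

The affine surface `a b - c ^ 2 d ^ 3 = 1`, `a c - b d = 1` in `ℂ⁴` is smooth, contractible and of
log-general type, and it contains no once-punctured curve.
-/

set_option autoImplicit false

namespace Pool.Agent.Results.MP_f311df_ag.ContractibleSurface

open Pool.Agent.H90.CS

/-- **Main theorem.** The affine surface `a b - c ^ 2 d ^ 3 = 1`, `a c - b d = 1` in `ℂ⁴` is an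
irreducible smooth surface, its space of complex points is contractible, it is of log-general
type, and it contains no once-punctured curve; moreover every morphism to it from a
once-punctured curve is constant. -/
theorem result :
    (∃ _ : IsDomain SurfRing, Algebra.trdeg ℂ SurfRing = 2 ∧ LogGeneralType SurfRing) ∧
      IsSmoothSurface ∧ ContractibleSpace SurfSet ∧
      (∀ (P : Ideal SurfRing) [P.IsPrime], ¬ OncePunctured (SurfRing ⧸ P)) ∧
      (∀ (B : Type) [CommRing B] [IsDomain B] [Algebra ℂ B] [Algebra.FiniteType ℂ B],
        OncePunctured B → ∀ (f : SurfRing →ₐ[ℂ] B) (a : SurfRing),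
          ∃ c : ℂ, f a = algebraMap ℂ B c) :=
  ⟨⟨instIsDomainSurf, trdeg_surf, logGeneralType_surf⟩, isSmoothSurface, contractible_surf,
    fun P _ => no_oncePunctured P, fun _ _ _ _ _ hB f a => hom_const hB f a⟩

end Pool.Agent.Results.MP_f311df_ag.ContractibleSurface
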