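import Mathlib
import Pool.Agent.H90.Ram.Defs
import Pool.Agent.H90.Ram.Main

/-!
# Ramanujam's surface contains no once-punctured curve

The affine surface `t v - e u ^ 2 = 1`, `16 u t ^ 2 + e v - 6 e u - 3 t = 1` in `ℂ⁴` is Ramanujam's
surface, the classical contractible surface of log-general type. It is smooth, it contains no
closed curve whose normalization is a once-punctured curve, and every morphism from a
once-punctured curve to it is constant.
-/

set_option autoImplicit false

namespace Pool.Agent.Results.MP_f311df_ag.RamanujamSurface

open Pool.Agent.H90.Ram

/-- **Main theorem.** The explicit affine surface is Ramanujam's surface, it is smooth, it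
contains no once-punctured curve, and every morphism to it from a once-punctured curve is
constant. -/
theorem result :
    IsRamanujamSurface ∧ IsSmoothSurface ∧
      (∀ (P : Ideal RamanujamRing) [P.IsPrime], ¬ OncePunctured (RamanujamRing ⧸ P)) ∧
      (∀ (B : Type) [CommRing B] [IsDomain B] [Algebra ℂ B] [Algebra.FiniteType ℂ B],
        OncePunctured B → ∀ (f : RamanujamRing →ₐ[ℂ] B) (a : RamanujamRing),
          ∃ c : ℂ, f a = algebraMap ℂ B c) :=
  ⟨isRamanujamSurface, isSmoothSurface, fun P _ => no_oncePunctured P,
    fun _ _ _ _ _ hB f a => hom_const hB f a⟩

end Pool.Agent.Results.MP_f311df_ag.RamanujamSurface
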